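import Pool.Agent.H85.Conc

set_option autoImplicit false

namespace Pool.Agent.Results.MP_7c0f46_gt.SmallBad

open Pool.Agent.H85.CovDefs Pool.Agent.H85.BDefs

/-- If there is a Sierpinski set of size less than `b`, then some set of reals of size less than
`b` is neither productively Hurewicz nor productively Menger. -/
theorem result (S : Set ℝ) (hS : Sierpinski S) (hb : Cardinal.mk S < bnum) :
    ∃ A : Set ℝ, Cardinal.mk A < bnum ∧ ∃ (Y : Type) (_ : TopologicalSpace Y), T2Space Y ∧
      Hurewicz Y ∧ Menger Y ∧ ¬ Hurewicz (A × Y) ∧ ¬ Menger (A × Y) :=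
  Pool.Agent.H85.Conc.small_bad hS hb

end Pool.Agent.Results.MP_7c0f46_gt.SmallBad
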